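import Pool.Agent.Work.MP_fda7e3_an.Quartic

set_option autoImplicit false

namespace Pool.Agent.Results.MP_fda7e3_an.QuarticCounterexample

open Polynomial

/-- The harmonic polynomial `z -> conj z + T z` attached to a complex polynomial `T`. -/
def harm (T : Polynomial ℂ) (z : ℂ) : ℂ := starRingEnd ℂ z + T.eval z

/-- `D` is a connected component of the open set of all `z` with `|T' z| < 1`: it is the
connected component, in this set, of a point of this set. -/
def IsComp (T : Polynomial ℂ) (D : Set ℂ) : Prop :=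
  ∃ x : ℂ, ‖(derivative T).eval x‖ < 1 ∧
    D = connectedComponentIn {u : ℂ | ‖(derivative T).eval u‖ < 1} x

open Classical in
/-- The number of zeros of `T''` in `D`, counted with multiplicity. -/
noncomputable def zerosIn (T : Polynomial ℂ) (D : Set ℂ) : ℕ :=
  Multiset.card ((derivative (derivative T)).roots.filter (fun z => z ∈ D))

/-- `g` is `p`-valent in `D`: every value is taken at most `p` times in `D`. -/
def Valent (p : ℕ) (g : ℂ → ℂ) (D : Set ℂ) : Prop :=
  ∀ w : ℂ, {z : ℂ | z ∈ D ∧ g z = w}.encard ≤ (p : ℕ∞)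

/-- There are a complex polynomial `T` of degree four and a component `D` of `|T'| < 1` in which
`T''` has no zero (so `r = 0`) and in which `conj z + T z` is not injective, i.e. not
`(r + 1)`-valent. -/
theorem result :
    ∃ T : Polynomial ℂ, T.natDegree = 4 ∧ ∃ D : Set ℂ, IsComp T D ∧
      zerosIn T D = 0 ∧ (∀ z ∈ D, (derivative (derivative T)).eval z ≠ 0) ∧
      (∃ z₁ ∈ D, ∃ z₂ ∈ D, z₁ ≠ z₂ ∧ harm T z₁ = harm T z₂) ∧
      ¬ Valent (zerosIn T D + 1) (harm T) D := by
  classical
  have hz0 : ∀ z ∈ connectedComponentIn {u : ℂ | ‖(derivative MPfda7e3.Quartic.T).eval u‖ < 1}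
      MPfda7e3.Quartic.z1,
      (derivative (derivative MPfda7e3.Quartic.T)).eval z ≠ 0 := by
    intro z hz
    exact MPfda7e3.Quartic.ddT_ne_zero z (connectedComponentIn_subset _ _ hz)
  have hcard : zerosIn MPfda7e3.Quartic.T
      (connectedComponentIn {u : ℂ | ‖(derivative MPfda7e3.Quartic.T).eval u‖ < 1}
        MPfda7e3.Quartic.z1) = 0 := by
    unfold zerosIn
    rw [Multiset.card_eq_zero, Multiset.filter_eq_nil]
    intro z hz hD
    exact hz0 z hD (isRoot_of_mem_roots hz)
  refine ⟨MPfda7e3.Quartic.T, MPfda7e3.Quartic.T_natDegree, _,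
    ⟨MPfda7e3.Quartic.z1, MPfda7e3.Quartic.z1_mem_U, rfl⟩, hcard, hz0, ?_, ?_⟩
  · exact ⟨MPfda7e3.Quartic.z1, MPfda7e3.Quartic.z1_mem_comp, MPfda7e3.Quartic.z2,
      MPfda7e3.Quartic.z2_mem_comp, MPfda7e3.Quartic.z1_ne_z2,
      MPfda7e3.Quartic.same_value.symm⟩
  · rw [hcard]
    intro hV
    have h := hV (harm MPfda7e3.Quartic.T MPfda7e3.Quartic.z1)
    have hsub : ({MPfda7e3.Quartic.z1, MPfda7e3.Quartic.z2} : Set ℂ) ⊆
        {z : ℂ | z ∈ connectedComponentIn
            {u : ℂ | ‖(derivative MPfda7e3.Quartic.T).eval u‖ < 1} MPfda7e3.Quartic.z1 ∧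
          harm MPfda7e3.Quartic.T z = harm MPfda7e3.Quartic.T MPfda7e3.Quartic.z1} := by
      intro z hz
      rcases hz with hz | hz
      · rw [hz]
        exact ⟨MPfda7e3.Quartic.z1_mem_comp, rfl⟩
      · rw [Set.mem_singleton_iff] at hz
        rw [hz]
        exact ⟨MPfda7e3.Quartic.z2_mem_comp, MPfda7e3.Quartic.same_value⟩
    have h2 := Set.encard_le_encard hsub
    rw [Set.encard_pair MPfda7e3.Quartic.z1_ne_z2] at h2
    have h3 : (2 : ℕ∞) ≤ ((0 + 1 : ℕ) : ℕ∞) := le_trans h2 h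
    norm_num at h3

end Pool.Agent.Results.MP_fda7e3_an.QuarticCounterexample
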